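import Pool.Agent.helper66.WD.Spec

/-!
# Row wd:FRP (MP_dc9173_lc): from branching programs to Nisan's condition
-/

universe u

namespace Pool.Agent.WD

open MvPolynomial Pool.Agent.helper92.VC

variable {n : ℕ} {K : Type u} [Field K] {w : ℕ}

/-- the matrix product of a list of layers -/
noncomputable def FRP_prod (L : List (Fin n × Matrix (Fin w) (Fin w) (Polynomial K))) :
    Matrix (Fin w) (Fin w) (MvPolynomial (Fin n) K) :=
  (L.map fun y => y.2.map fun p => Polynomial.aeval (X y.1 : MvPolynomial (Fin n) K) p).prod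

/-- the vector of the values -/
noncomputable def FRP_vec (L : List (Fin n × Matrix (Fin w) (Fin w) (Polynomial K))) (v : Fin w → K) :
    Fin w → MvPolynomial (Fin n) K :=
  (FRP_prod L).mulVec fun s => C (v s)

lemma FRP_vec_cons (y : Fin n × Matrix (Fin w) (Fin w) (Polynomial K))
    (L : List (Fin n × Matrix (Fin w) (Fin w) (Polynomial K))) (v : Fin w → K) (s : Fin w) :
    FRP_vec (y :: L) v s = ∑ t, Polynomial.aeval (X y.1 : MvPolynomial (Fin n) K) (y.2 s t) * FRP_vec L v t := by
  unfold FRP_vec FRP_prod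
  rw [List.map_cons, List.prod_cons, ← Matrix.mulVec_mulVec]
  rfl

lemma FRP_phi_same (x : Fin n) (p : Polynomial K) (j : ℕ) :
    (phi x (Polynomial.aeval (X x : MvPolynomial (Fin n) K) p)).coeff j = C (p.coeff j) := by
  have h1 : phi x (Polynomial.aeval (X x : MvPolynomial (Fin n) K) p) = p.map (C : K →+* MvPolynomial (Fin n) K) := by
    rw [← Polynomial.aeval_algHom_apply]
    have h2 : phi x (X x : MvPolynomial (Fin n) K) = Polynomial.X := by
      unfold phi
      rw [aeval_X, if_pos rfl]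
    rw [h2]
    rfl
  rw [h1, Polynomial.coeff_map]

lemma FRP_phi_ne (x y : Fin n) (h : y ≠ x) (p : Polynomial K) :
    phi x (Polynomial.aeval (X y : MvPolynomial (Fin n) K) p) =
      Polynomial.C (Polynomial.aeval (X y : MvPolynomial (Fin n) K) p) := by
  rw [← Polynomial.aeval_algHom_apply]
  have h2 : phi x (X y : MvPolynomial (Fin n) K) = Polynomial.C (X y) := by
    unfold phi
    rw [aeval_X, if_neg h]
  rw [h2, Polynomial.aeval_def, Polynomial.aeval_def, Polynomial.hom_eval₂]
  rfl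

lemma FRP_vec_phi (x : Fin n) (L : List (Fin n × Matrix (Fin w) (Fin w) (Polynomial K))) (hx : x ∉ L.map Prod.fst)
    (v : Fin w → K) : ∀ s : Fin w, phi x (FRP_vec L v s) = Polynomial.C (FRP_vec L v s) := by
  induction L with
  | nil =>
    intro s
    have h1 : FRP_vec ([] : List (Fin n × Matrix (Fin w) (Fin w) (Polynomial K))) v s = C (v s) := by
      unfold FRP_vec FRP_prod
      rw [List.map_nil, List.prod_nil, Matrix.one_mulVec]
    rw [h1]
    have h2 : phi x (C (v s) : MvPolynomial (Fin n) K) = Polynomial.C (C (v s)) := by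
      unfold phi
      rw [aeval_C]
      rfl
    exact h2
  | cons y L ih =>
    intro s
    rw [List.map_cons, List.mem_cons, not_or] at hx
    rw [FRP_vec_cons, map_sum, map_sum]
    apply Finset.sum_congr rfl
    intro t _
    rw [map_mul, map_mul, ih hx.2 t, FRP_phi_ne x y.1 (Ne.symm hx.1)]

/-- the value with the left vector `u` -/
noncomputable def FRP_val (L : List (Fin n × Matrix (Fin w) (Fin w) (Polynomial K))) (v u : Fin w → K) :
    MvPolynomial (Fin n) K := ∑ s, C (u s) * FRP_vec L v s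

lemma FRP_dim (L : List (Fin n × Matrix (Fin w) (Fin w) (Polynomial K))) (v : Fin w → K) :
    DimP w {q | ∃ u, q = FRP_val L v u} := by
  refine ⟨FRP_vec L v, ?_⟩
  rintro q ⟨u, rfl⟩
  unfold FRP_val
  apply Submodule.sum_mem
  intro s _
  rw [← smul_eq_C_mul]
  exact Submodule.smul_mem _ _ (Submodule.subset_span ⟨s, rfl⟩)

lemma FRP_cf (y : Fin n × Matrix (Fin w) (Fin w) (Polynomial K))
    (L : List (Fin n × Matrix (Fin w) (Fin w) (Polynomial K))) (hy : y.1 ∉ L.map Prod.fst) (v u : Fin w → K) (j : ℕ) :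
    cf y.1 j (FRP_val (y :: L) v u) = FRP_val L v (fun t => ∑ s, u s * (y.2 s t).coeff j) := by
  unfold cf FRP_val
  rw [map_sum, Polynomial.finset_sum_coeff]
  have h1 : ∀ s : Fin w, (phi y.1 (C (u s) * FRP_vec (y :: L) v s)).coeff j =
      ∑ t, C (u s * (y.2 s t).coeff j) * FRP_vec L v t := by
    intro s
    rw [map_mul]
    have h2 : phi y.1 (C (u s) : MvPolynomial (Fin n) K) = Polynomial.C (C (u s)) := by
      unfold phi
      rw [aeval_C]
      rfl
    rw [h2, Polynomial.coeff_C_mul, FRP_vec_cons, map_sum, Polynomial.finset_sum_coeff, Finset.mul_sum]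
    apply Finset.sum_congr rfl
    intro t _
    rw [map_mul, FRP_vec_phi y.1 L hy v t, Polynomial.coeff_mul_C, FRP_phi_same, C_mul]
    ring
  rw [Finset.sum_congr rfl (fun s _ => h1 s), Finset.sum_comm]
  apply Finset.sum_congr rfl
  intro t _
  rw [← Finset.sum_mul, map_sum]

lemma FRP_main (v : Fin w → K) (hMNP : MNP_stmt.{u}) (L : List (Fin n × Matrix (Fin w) (Fin w) (Polynomial K))) :
    (L.map Prod.fst).Nodup → RP w (L.map Prod.fst) {q | ∃ u, q = FRP_val L v u} := by
  induction L with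
  | nil => intro _; exact FRP_dim [] v
  | cons y L ih =>
    intro hnd
    rw [List.map_cons, List.nodup_cons] at hnd
    rw [List.map_cons]
    refine ⟨FRP_dim (y :: L) v, ?_⟩
    refine hMNP n K w w _ _ _ le_rfl ?_ (ih hnd.2)
    rintro q ⟨p, ⟨u, rfl⟩, j, rfl⟩
    exact ⟨_, FRP_cf y L hnd.1 v u j⟩

/-- **FRP** -/
theorem FRP (hMNP : MNP_stmt.{u}) (hSPP : SPP_stmt.{u}) : FRP_stmt.{u} := by
  intro n K _ w τ A hA
  obtain ⟨M, u, v, rfl⟩ := hA
  have h1 : (List.ofFn fun i : Fin n => (τ i, M i)).map Prod.fst = List.ofFn τ := by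
    rw [List.map_ofFn]
    rfl
  have h2 := FRP_main v hMNP (List.ofFn fun i : Fin n => (τ i, M i))
    (by rw [h1]; exact List.nodup_ofFn.mpr τ.injective)
  rw [h1] at h2
  refine hMNP n K w w _ _ _ le_rfl ?_ h2
  rintro q rfl
  refine ⟨u, ?_⟩
  unfold FRP_val FRP_vec FRP_prod
  rw [List.map_ofFn]
  rfl

end Pool.Agent.WD
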