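import Pool.Agent.helper66.WD.Spec

/-!
# Row wd:HOP (MP_dc9173_lc): homogeneous components
-/

universe u

namespace Pool.Agent.WD

open MvPolynomial Pool.Agent.helper92.VC

/-- `cf x a` as a linear map -/
noncomputable def HOP_cfL {n : ℕ} {K : Type u} [Field K] (x : Fin n) (a : ℕ) :
    MvPolynomial (Fin n) K →ₗ[K] MvPolynomial (Fin n) K :=
  ((Polynomial.lcoeff (MvPolynomial (Fin n) K) a).restrictScalars K) ∘ₗ (phi x).toLinearMap

lemma HOP_cfL_apply {n : ℕ} {K : Type u} [Field K] (x : Fin n) (a : ℕ) (p : MvPolynomial (Fin n) K) :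
    HOP_cfL x a p = cf x a p := rfl

lemma HOP_phi_monomial {n : ℕ} {K : Type u} [Field K] (x : Fin n) (s : Fin n →₀ ℕ) (c : K) :
    phi x (monomial s c) = Polynomial.C (monomial (s.erase x) c) * Polynomial.X ^ (s x) := by
  unfold phi
  rw [aeval_monomial]
  have h1 : (s.prod fun i k => (if i = x then (Polynomial.X : Polynomial (MvPolynomial (Fin n) K)) else Polynomial.C (X i)) ^ k) =
      Polynomial.C (monomial (s.erase x) 1) * Polynomial.X ^ (s x) := by
    rw [monomial_eq, map_one, one_mul, Finsupp.prod_fintype _ _ (by intro i; simp),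
      Finsupp.prod_fintype _ _ (by intro i; simp), map_prod]
    rw [← Finset.mul_prod_erase Finset.univ _ (Finset.mem_univ x)]
    rw [← Finset.mul_prod_erase Finset.univ (fun i => Polynomial.C (X i ^ (s.erase x) i)) (Finset.mem_univ x)]
    simp only [if_true, Finsupp.erase_same, pow_zero, map_one, one_mul]
    rw [mul_comm]
    congr 1
    apply Finset.prod_congr rfl
    intro i hi
    have hne : i ≠ x := (Finset.mem_erase.mp hi).1
    rw [if_neg hne, Finsupp.erase_ne hne, Polynomial.C_pow]
  rw [h1]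
  have h2 : (algebraMap K (Polynomial (MvPolynomial (Fin n) K))) c = Polynomial.C (C c) := rfl
  rw [h2, ← mul_assoc, ← Polynomial.C_mul, C_mul_monomial, mul_one]

lemma HOP_cf_monomial {n : ℕ} {K : Type u} [Field K] (x : Fin n) (a : ℕ) (s : Fin n →₀ ℕ) (c : K) :
    cf x a (monomial s c) = if a = s x then monomial (s.erase x) c else 0 := by
  unfold cf
  rw [HOP_phi_monomial, Polynomial.coeff_C_mul, Polynomial.coeff_X_pow]
  split_ifs with h
  · rw [mul_one]
  · rw [mul_zero]

lemma HOP_hc_monomial {n : ℕ} {K : Type u} [Field K] (j : ℕ) (s : Fin n →₀ ℕ) (c : K) :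
    homogeneousComponent j (monomial s c) = if s.degree = j then monomial s c else 0 := by
  ext m
  rw [coeff_homogeneousComponent]
  by_cases h2 : s = m
  · subst h2
    split_ifs
    · rfl
    · rw [coeff_zero]
  · rw [coeff_monomial, if_neg h2]
    have h3 : coeff m (if s.degree = j then monomial s c else 0 : MvPolynomial (Fin n) K) = 0 := by
      split_ifs
      · rw [coeff_monomial, if_neg h2]
      · rw [coeff_zero]
    rw [h3]
    split_ifs <;> rfl

lemma HOP_degree_erase {n : ℕ} (x : Fin n) (s : Fin n →₀ ℕ) : s.degree = s x + (s.erase x).degree := by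
  have h := Finsupp.single_add_erase x s
  calc s.degree = (Finsupp.single x (s x) + s.erase x).degree := by rw [h]
    _ = _ := by rw [map_add, Finsupp.degree_single]

lemma HOP_cf_hc {n : ℕ} {K : Type u} [Field K] (x : Fin n) (a j : ℕ) (p : MvPolynomial (Fin n) K) :
    cf x a (homogeneousComponent j p) = if a ≤ j then homogeneousComponent (j - a) (cf x a p) else 0 := by
  induction p using MvPolynomial.induction_on' with
  | monomial s c =>
    rw [HOP_hc_monomial, HOP_cf_monomial]
    have hd := HOP_degree_erase x s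
    by_cases h1 : s.degree = j
    · rw [if_pos h1, HOP_cf_monomial]
      by_cases h2 : a = s x
      · rw [if_pos h2, if_pos (by omega), HOP_hc_monomial, if_pos (by omega)]
      · rw [if_neg h2]
        split_ifs
        · rw [map_zero]
        · rfl
    · rw [if_neg h1]
      have h0 : cf x a (0 : MvPolynomial (Fin n) K) = 0 := by
        rw [← HOP_cfL_apply, map_zero]
      rw [h0]
      by_cases h2 : a = s x
      · rw [if_pos h2]
        by_cases h3 : a ≤ j
        · rw [if_pos h3, HOP_hc_monomial, if_neg (by omega)]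
        · rw [if_neg h3]
      · rw [if_neg h2, map_zero]
        split_ifs <;> rfl
  | add p q hp hq =>
    rw [map_add, ← HOP_cfL_apply, map_add, HOP_cfL_apply, HOP_cfL_apply, hp, hq, ← HOP_cfL_apply x a (p + q), map_add,
      HOP_cfL_apply, HOP_cfL_apply]
    split_ifs
    · rw [map_add]
    · rw [add_zero]

lemma HOP_dim {n : ℕ} {K : Type u} [Field K] (w D : ℕ) (S : Set (MvPolynomial (Fin n) K)) (h : DimP w S) :
    DimP (w * (D + 1)) {q | ∃ p ∈ S, ∃ j ≤ D, q = homogeneousComponent j p} := by
  obtain ⟨g, hg⟩ := h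
  refine ⟨fun k => homogeneousComponent ((finProdFinEquiv.symm k).2 : ℕ) (g (finProdFinEquiv.symm k).1), ?_⟩
  rintro q ⟨p, hp, j, hj, rfl⟩
  have h1 : homogeneousComponent j p ∈ (Submodule.span K (Set.range g)).map (homogeneousComponent j) :=
    Submodule.mem_map_of_mem (hg hp)
  rw [Submodule.map_span] at h1
  refine Submodule.span_mono ?_ h1
  rintro r ⟨_, ⟨i, rfl⟩, rfl⟩
  exact ⟨finProdFinEquiv (i, ⟨j, by omega⟩), by simp⟩

/-- **HOP** -/
theorem HOP (hMNP : MNP_stmt.{u}) (hSPP : SPP_stmt.{u}) : HOP_stmt.{u} := by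
  intro n K _ w D l
  induction l with
  | nil =>
    intro S h
    exact HOP_dim w D S h
  | cons x s ih =>
    intro S h
    refine ⟨HOP_dim w D S h.1, ?_⟩
    have h1 := ih _ h.2
    have h2 := hSPP n K (w * (D + 1)) s _ h1
    refine hMNP n K _ _ s _ _ le_rfl ?_ h2
    rintro q ⟨r, ⟨p, hp, j, hj, rfl⟩, a, rfl⟩
    rw [HOP_cf_hc]
    split_ifs with haj
    · apply Submodule.subset_span
      exact ⟨cf x a p, ⟨p, hp, a, rfl⟩, j - a, by omega, rfl⟩
    · exact Submodule.zero_mem _

end Pool.Agent.WD
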