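import Pool.Agent.helper66.WD.Spec

/-!
# Row wd:PRP (MP_dc9173_lc): products, widths multiply
-/

universe u

namespace Pool.Agent.WD

open MvPolynomial Pool.Agent.helper92.VC

lemma PRP_cf_mul {n : ℕ} {K : Type u} [Field K] (x : Fin n) (j : ℕ) (p q : MvPolynomial (Fin n) K) :
    cf x j (p * q) = ∑ ab ∈ Finset.HasAntidiagonal.antidiagonal j, cf x ab.1 p * cf x ab.2 q := by
  unfold cf
  rw [map_mul, Polynomial.coeff_mul]

lemma PRP_dim {n : ℕ} {K : Type u} [Field K] (w w' : ℕ) (S S' : Set (MvPolynomial (Fin n) K))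
    (h : DimP w S) (h' : DimP w' S') : DimP (w * w') {q | ∃ p ∈ S, ∃ p' ∈ S', q = p * p'} := by
  obtain ⟨g, hg⟩ := h
  obtain ⟨g', hg'⟩ := h'
  refine ⟨fun k => g (finProdFinEquiv.symm k).1 * g' (finProdFinEquiv.symm k).2, ?_⟩
  rintro q ⟨p, hp, p', hp', rfl⟩
  have h1 : p * p' ∈ Submodule.span K (Set.range g) * Submodule.span K (Set.range g') :=
    Submodule.mul_mem_mul (hg hp) (hg' hp')
  rw [Submodule.span_mul_span] at h1
  refine Submodule.span_mono ?_ h1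
  rintro r hr
  rw [Set.mem_mul] at hr
  obtain ⟨a, ⟨i, rfl⟩, b, ⟨k, rfl⟩, rfl⟩ := hr
  exact ⟨finProdFinEquiv (i, k), by simp⟩

/-- **PRP** -/
theorem PRP (hMNP : MNP_stmt.{u}) (hSPP : SPP_stmt.{u}) : PRP_stmt.{u} := by
  intro n K _ w w' l
  induction l with
  | nil =>
    intro S S' h h'
    exact PRP_dim w w' S S' h h'
  | cons x s ih =>
    intro S S' h h'
    refine ⟨PRP_dim w w' S S' h.1 h'.1, ?_⟩
    have h1 := ih _ _ h.2 h'.2
    have h2 := hSPP n K (w * w') s _ h1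
    refine hMNP n K (w * w') (w * w') s _ _ le_rfl ?_ h2
    rintro q ⟨r, ⟨p, hp, p', hp', rfl⟩, j, rfl⟩
    rw [PRP_cf_mul]
    apply Submodule.sum_mem
    intro ab _
    apply Submodule.subset_span
    exact ⟨cf x ab.1 p, ⟨p, hp, ab.1, rfl⟩, cf x ab.2 p', ⟨p', hp', ab.2, rfl⟩, rfl⟩

end Pool.Agent.WD
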